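import Pool.Agent.N119.PS.Fin4

/-!
# The Patterson-Sullivan intersection function on Outer space is at least one

For `N ≥ 2` the intersection form exists, every point `T` of Outer space `cv_N` has a
Patterson-Sullivan current normalised by `⟨T, μ_T⟩ = 1`, and for every intersection form, all
`S, T` in `cv_N` and all normalised Patterson-Sullivan currents `μ_S`, `μ_T`,
`⟨S, μ_T⟩ ≥ h_T / h_S` and `⟨S, μ_T⟩ ⟨T, μ_S⟩ ≥ 1`.
-/

set_option autoImplicit false

namespace Pool.Agent.Results.MP_fee052_al.EntropyBound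

open Pool.Agent.H472R3 Pool.Agent.H67R3.FSR Pool.Agent.H67R4.SR Pool.Agent.N119.PS

theorem result (N : ℕ) (hN : 2 ≤ N) :
    (∃ I : FTree N → Current N → ℝ, IsIntersectionForm I) ∧
    ∀ I : FTree N → Current N → ℝ, IsIntersectionForm I →
      (∀ T : FTree N, T.InCV → ∃ μ : Current N, IsPSCurrent T μ ∧ I T μ = 1) ∧
      ∀ S T : FTree N, S.InCV → T.InCV → ∀ μS μT : Current N, IsPSCurrent S μS →
        IsPSCurrent T μT → I S μS = 1 → I T μT = 1 →
        0 < critExp S ∧ critExp T / critExp S ≤ I S μT ∧ 1 ≤ I S μT * I T μS :=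
  thm1 l_den l_cur l_nrm (l_ifm l_pow) N hN

end Pool.Agent.Results.MP_fee052_al.EntropyBound
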